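import Pool.Agent.U174.AO.Stm

/-!
# Project AO, package HENM (helper319): the valuation of an elementary subfield is henselian
-/

set_option autoImplicit false

namespace Pool.Agent.U319.AO

open IsLocalRing Pool.Agent.U174.AO

/-- the formula for membership of `p` in the maximal ideal -/
noncomputable def MI {ι : Type} (i₁ : ι) {n : ℕ} (p : MvPolynomial (Fin n) ℤ) : Fm ι n :=
  .and (.pred i₁ p) (.not (.ex (.and (.pred i₁ (MvPolynomial.X 0))
    (.zero (MvPolynomial.X 0 * MvPolynomial.rename Fin.succ p - 1)))))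

theorem holds_MI {ι K : Type} [Field K] (Q : ι → Set K) (i₁ : ι) (O : ValuationSubring K)
    (hQ : Q i₁ = (O : Set K)) {n : ℕ} (p : MvPolynomial (Fin n) ℤ) (x : Fin n → K) :
    (MI i₁ p).Holds Q x ↔
      ∃ h : MvPolynomial.aeval x p ∈ O, (⟨MvPolynomial.aeval x p, h⟩ : O) ∈ maximalIdeal O := by
  have e : ∀ u : K, MvPolynomial.aeval (Fin.cons u x : Fin (n + 1) → K)
      (MvPolynomial.rename Fin.succ p) = MvPolynomial.aeval x p := by
    intro u
    rw [MvPolynomial.aeval_rename]
    congr 1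
  simp only [MI, Fm.Holds, hQ, map_sub, map_mul, map_one, MvPolynomial.aeval_X, Fin.cons_zero, e]
  constructor
  · rintro ⟨h1, h2⟩
    refine ⟨h1, ?_⟩
    rw [mem_maximalIdeal, mem_nonunits_iff]
    intro hu
    obtain ⟨b, hb⟩ := isUnit_iff_exists_inv.1 hu
    refine h2 ⟨(b : K), b.2, ?_⟩
    have h3 : MvPolynomial.aeval x p * (b : K) = 1 := congrArg Subtype.val hb
    rw [mul_comm, h3, sub_self]
  · rintro ⟨h1, h2⟩
    refine ⟨h1, ?_⟩
    rintro ⟨u, hu, he⟩
    rw [mem_maximalIdeal, mem_nonunits_iff] at h2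
    refine h2 (isUnit_iff_exists_inv.2 ⟨⟨u, hu⟩, Subtype.ext ?_⟩)
    show MvPolynomial.aeval x p * u = 1
    rw [mul_comm]
    exact sub_eq_zero.1 he

theorem holds_MI2 {ι K : Type} [Field K] (Q : ι → Set K) (i₁ : ι) (O : ValuationSubring K)
    (hQ : Q i₁ = (O : Set K)) {n : ℕ} (p : MvPolynomial (Fin n) ℤ) (x : Fin n → K) (z : O)
    (hz : MvPolynomial.aeval x p = (z : K)) : (MI i₁ p).Holds Q x ↔ z ∈ maximalIdeal O := by
  have hm : MvPolynomial.aeval x p ∈ O := by rw [hz]; exact z.2
  have he : (⟨MvPolynomial.aeval x p, hm⟩ : O) = z := Subtype.ext hz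
  rw [holds_MI Q i₁ O hQ]
  constructor
  · rintro ⟨h, h'⟩
    rw [← he]
    exact h'
  · intro h
    refine ⟨hm, ?_⟩
    rw [he]
    exact h

section
variable {N : Type} [Field N]

/-- the inclusion of the valuation ring of the subfield -/
def emb (V : ValuationSubring N) (M : Subfield N) : (V.comap M.subtype) →+* V where
  toFun a := ⟨((a : M) : N), a.2⟩
  map_one' := rfl
  map_mul' _ _ := rfl
  map_zero' := rfl
  map_add' _ _ := rfl

theorem emb_unit (V : ValuationSubring N) (M : Subfield N) (a : V.comap M.subtype)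
    (h : IsUnit (emb V M a)) : IsUnit a := by
  obtain ⟨b, hb⟩ := isUnit_iff_exists_inv.1 h
  have h1 : ((a : M) : N) * (b : N) = 1 := congrArg Subtype.val hb
  have h2 : (b : N) = (((a : M)⁻¹ : M) : N) := by
    have h3 := eq_inv_of_mul_eq_one_right h1
    rw [h3]
    rfl
  refine isUnit_iff_exists_inv.2 ⟨⟨(a : M)⁻¹, ?_⟩, ?_⟩
  · show (((a : M)⁻¹ : M) : N) ∈ V
    rw [← h2]
    exact b.2
  · apply Subtype.ext
    apply Subtype.ext
    show ((a : M) : N) * (((a : M)⁻¹ : M) : N) = 1
    rw [← h2, h1]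

instance (V : ValuationSubring N) (M : Subfield N) : IsLocalHom (emb V M) := ⟨emb_unit V M⟩

end

theorem t_HENM : S_BAS → S_HENM := by
  intro _ ι N _ Q i₁ V hQ M hE
  have hQM : (fun i => {z : M | (z : N) ∈ Q i}) i₁ = ((V.comap M.subtype : ValuationSubring M) : Set M) := by
    ext z
    show (z : N) ∈ Q i₁ ↔ (z : N) ∈ V
    rw [hQ]
    rfl
  refine ⟨fun hV => ?_, fun hV => ?_, fun hV => ?_⟩
  · refine { toIsLocalRing := inferInstance, is_henselian := ?_ }
    intro f hf a₀ h1 h2
    obtain ⟨y, hy1, hy2⟩ := hV.is_henselian (f.map (emb V M)) (hf.map _) (emb V M a₀) (by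
      rw [Polynomial.eval_map, Polynomial.eval₂_at_apply]
      rw [mem_maximalIdeal, mem_nonunits_iff] at h1 ⊢
      exact fun h => h1 (emb_unit V M _ h)) (by
      rw [Polynomial.derivative_map, Polynomial.eval_map, Polynomial.eval₂_at_apply]
      exact h2.map _)
    have hy3 : ∑ i ∈ Finset.range (f.natDegree + 1), (emb V M (f.coeff i)) * y ^ i = 0 := by
      rw [← Polynomial.eval₂_eq_sum_range, ← Polynomial.eval_map]
      exact hy1
    set d := f.natDegree with hd
    let P : MvPolynomial (Fin (d + 1 + 1 + 1)) ℤ :=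
      ∑ i : Fin (d + 1), MvPolynomial.X i.succ.succ * MvPolynomial.X 0 ^ (i : ℕ)
    let φ : Fm ι (d + 1 + 1) := .ex (.and (.zero P)
      (MI i₁ (MvPolynomial.X 0 - MvPolynomial.X (Fin.succ 0))))
    let b : Fin (d + 1 + 1) → M := Fin.cons (a₀ : M) (fun i : Fin (d + 1) => (f.coeff i : M))
    have hN : φ.Holds Q (fun i => (b i : N)) := by
      refine ⟨(y : N), ?_, ?_⟩
      · show MvPolynomial.aeval _ P = 0
        have h4 := congrArg (fun z : V => (z : N)) hy3
        simp only [P, map_sum, map_mul, map_pow, MvPolynomial.aeval_X, Fin.cons_succ, Fin.cons_zero, b]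
        rw [Finset.sum_range] at h4
        have he : ∀ z : V.comap M.subtype, ((emb V M z : V) : N) = ((z : M) : N) := fun _ => rfl
        simpa [he] using h4
      · have e1 : MvPolynomial.aeval (Fin.cons (y : N) (fun i => (b i : N)) : Fin (d + 1 + 1 + 1) → N)
            (MvPolynomial.X 0 - MvPolynomial.X (Fin.succ 0) : MvPolynomial (Fin (d + 1 + 1 + 1)) ℤ) =
            ((y - emb V M a₀ : V) : N) := by
          simp only [map_sub, MvPolynomial.aeval_X, Fin.cons_succ, Fin.cons_zero, b]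
          rfl
        exact (holds_MI2 Q i₁ V hQ _ _ _ e1).2 hy2
    have hM := (hE _ φ b).2 hN
    obtain ⟨y', hy4, hy5⟩ := hM
    rw [holds_MI _ i₁ (V.comap M.subtype) hQM] at hy5
    obtain ⟨h5, h6⟩ := hy5
    have e3 : MvPolynomial.aeval (Fin.cons y' b : Fin (d + 1 + 1 + 1) → M)
            (MvPolynomial.X 0 - MvPolynomial.X (Fin.succ 0) : MvPolynomial (Fin (d + 1 + 1 + 1)) ℤ) =
            y' - (a₀ : M) := by
      simp only [map_sub, MvPolynomial.aeval_X, Fin.cons_succ, Fin.cons_zero, b]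
    have h7 : y' ∈ V.comap M.subtype := by
      have h8 : y' - (a₀ : M) ∈ V.comap M.subtype := by rw [← e3]; exact h5
      have h9 := (V.comap M.subtype).add_mem _ _ h8 a₀.2
      rwa [sub_add_cancel] at h9
    refine ⟨⟨y', h7⟩, ?_, ?_⟩
    · show f.eval _ = 0
      apply Subtype.ext
      have h10 : MvPolynomial.aeval (Fin.cons y' b : Fin (d + 1 + 1 + 1) → M) P = 0 := hy4
      simp only [P, map_sum, map_mul, map_pow, MvPolynomial.aeval_X, Fin.cons_succ, Fin.cons_zero, b] at h10
      rw [Polynomial.eval_eq_sum_range, Finset.sum_range]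
      simpa using h10
    · have e4 : (⟨_, h5⟩ : V.comap M.subtype) = ⟨y', h7⟩ - a₀ := Subtype.ext e3
      rw [← e4]
      exact h6
  · exact (ResidueField.map (emb V M)).charZero
  · intro r
    obtain ⟨a, rfl⟩ := residue_surjective r
    have key : ∀ (s : ℤ) (w : V), residue V (emb V M a) = residue V (s * w ^ 2) →
        ∃ w' : V.comap M.subtype, residue (V.comap M.subtype) a =
          residue (V.comap M.subtype) (s * w' ^ 2) := by
      intro s w hw
      rw [← sub_eq_zero, ← map_sub, residue_eq_zero_iff] at hw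
      let p : MvPolynomial (Fin (1 + 1)) ℤ :=
        MvPolynomial.X (Fin.succ 0) - MvPolynomial.C s * MvPolynomial.X 0 ^ 2
      let φ : Fm ι 1 := .ex (.and (.pred i₁ (MvPolynomial.X 0)) (MI i₁ p))
      have hN : φ.Holds Q (fun i => (((fun _ : Fin 1 => (a : M)) i : M) : N)) := by
        refine ⟨(w : N), ?_, ?_⟩
        · show MvPolynomial.aeval _ (MvPolynomial.X 0) ∈ Q i₁
          rw [hQ, MvPolynomial.aeval_X, Fin.cons_zero]
          exact w.2
        · have e1 : MvPolynomial.aeval (Fin.cons (w : N) (fun i => (((fun _ : Fin 1 => (a : M)) i : M) : N)) :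
              Fin (1 + 1) → N) p = ((emb V M a - s * w ^ 2 : V) : N) := by
            simp only [p, map_sub, map_mul, map_pow, MvPolynomial.aeval_X, MvPolynomial.aeval_C,
              Fin.cons_succ, Fin.cons_zero]
            simp [emb]
          exact (holds_MI2 Q i₁ V hQ _ _ _ e1).2 hw
      obtain ⟨w', hw1, hw2⟩ := (hE _ φ (fun _ : Fin 1 => (a : M))).2 hN
      have hw3 : w' ∈ V.comap M.subtype := by
        have h3 : MvPolynomial.aeval (Fin.cons w' (fun _ : Fin 1 => (a : M)) : Fin (1 + 1) → M)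
          (MvPolynomial.X 0 : MvPolynomial (Fin (1 + 1)) ℤ) ∈ (fun i => {z : M | (z : N) ∈ Q i}) i₁ := hw1
        rw [hQM, MvPolynomial.aeval_X, Fin.cons_zero] at h3
        exact h3
      rw [holds_MI _ i₁ (V.comap M.subtype) hQM] at hw2
      obtain ⟨h5, h6⟩ := hw2
      have e3 : MvPolynomial.aeval (Fin.cons w' (fun _ : Fin 1 => (a : M)) : Fin (1 + 1) → M) p =
          ((a - s * ⟨w', hw3⟩ ^ 2 : V.comap M.subtype) : M) := by
        simp only [p, map_sub, map_mul, map_pow, MvPolynomial.aeval_X, MvPolynomial.aeval_C,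
          Fin.cons_succ, Fin.cons_zero]
        simp
      refine ⟨⟨w', hw3⟩, ?_⟩
      rw [← sub_eq_zero, ← map_sub, residue_eq_zero_iff]
      have e4 : (⟨_, h5⟩ : V.comap M.subtype) = a - s * ⟨w', hw3⟩ ^ 2 := Subtype.ext e3
      rw [← e4]
      exact h6
    rcases hV (residue V (emb V M a)) with ⟨s, hs⟩ | ⟨s, hs⟩
    · obtain ⟨w, rfl⟩ := residue_surjective s
      obtain ⟨w', hw'⟩ := key 1 w (by rw [hs]; simp)
      exact Or.inl ⟨residue _ w', by rw [hw']; simp⟩
    · obtain ⟨w, rfl⟩ := residue_surjective s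
      obtain ⟨w', hw'⟩ := key (-1) w (by rw [hs]; simp)
      exact Or.inr ⟨residue _ w', by rw [hw']; simp⟩

end Pool.Agent.U319.AO
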